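import Pool.Agent.Helper86.SG.Defs

/-! Package CENB of the project SG (`MP_66bcf1_co`). -/

set_option autoImplicit false

open Finset

namespace Pool.Agent.Helper47.SGB

open SJ (supp IsV dot fib)

lemma mem_supp {n : ℕ} {v : Fin n → ℤ} {i : Fin n} : i ∈ supp v ↔ v i ≠ 0 := by
  unfold supp
  rw [mem_filter]
  exact ⟨fun h => h.2, fun h => ⟨mem_univ _, h⟩⟩

lemma neg_ne_iff {a c : ℤ} (ha : a = -1 ∨ a = 0 ∨ a = 1) (h0 : a ≠ 0) (hc : c = 1 ∨ c = -1) :
    -a ≠ c ↔ a = c := by
  rcases ha with rfl | rfl | rfl
  · rcases hc with rfl | rfl <;> norm_num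
  · exact absurd rfl h0
  · rcases hc with rfl | rfl <;> norm_num

theorem cenb : _root_.SG.CENBStm := by
  intro n k d F hk hF T V v₁ hv₁ hTV hV c hc hStr v hv hvT
  obtain ⟨hIsV, hdot⟩ := hF
  obtain ⟨hv1, hS⟩ := hIsV v hv
  by_cases h1 : v₁ ∈ supp v
  · obtain ⟨-, -, h2⟩ := hStr (supp v) hS hvT h1
    have h3 := (h2 v (hIsV v hv) rfl).1 hv
    have h4 : (supp v).filter (fun i => v i ≠ c i) ⊆
        insert v₁ (((supp v).erase v₁).filter (fun i => v i ≠ c i)) := by
      intro i hi
      rw [mem_filter] at hi
      by_cases h5 : i = v₁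
      · rw [h5]
        exact mem_insert_self _ _
      · exact mem_insert_of_mem (mem_filter.2 ⟨mem_erase.2 ⟨h5, hi.1⟩, hi.2⟩)
    have h5 := card_le_card h4
    have h6 := card_insert_le v₁ (((supp v).erase v₁).filter (fun i => v i ≠ c i))
    omega
  · by_contra hcon
    have hD : d + 2 ≤ #((supp v).filter (fun i => v i ≠ c i)) := by omega
    obtain ⟨D', hD', cD'⟩ := exists_subset_card_eq hD
    obtain ⟨A, hDA, hAS, cA⟩ := exists_subsuperset_card_eq (hD'.trans (filter_subset _ _))
      (show #D' ≤ 2 * d + 2 by omega) (show 2 * d + 2 ≤ #(supp v) by omega)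
    have hcard : k - (2 * d + 3) ≤ #(V \ insert v₁ (supp v)) := by
      have h2 := le_card_sdiff (insert v₁ (supp v)) V
      have h3 := card_insert_le v₁ (supp v)
      omega
    obtain ⟨W, hW, cW⟩ := exists_subset_card_eq hcard
    have hWV : ∀ i ∈ W, i ∈ V ∧ i ≠ v₁ ∧ i ∉ supp v := by
      intro i hi
      have h2 := mem_sdiff.1 (hW hi)
      rw [mem_insert, not_or] at h2
      exact ⟨h2.1, h2.2.1, h2.2.2⟩
    have hAW : Disjoint A W := disjoint_left.2 fun i hi hi' => (hWV i hi').2.2 (hAS hi)
    have hv₁AW : v₁ ∉ A ∪ W := by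
      rw [mem_union, not_or]
      exact ⟨fun h => h1 (hAS h), fun h => (hWV v₁ h).2.1 rfl⟩
    have cS' : #(insert v₁ (A ∪ W)) = k := by
      rw [card_insert_of_notMem hv₁AW, card_union_of_disjoint hAW, cA, cW]
      omega
    have hS'T : Disjoint (insert v₁ (A ∪ W)) T := by
      rw [disjoint_left]
      intro i hi hiT
      rw [mem_insert, mem_union] at hi
      rcases hi with rfl | hi | hi
      · exact disjoint_left.1 hTV hiT hv₁
      · exact disjoint_left.1 hvT (hAS hi) hiT
      · exact disjoint_left.1 hTV hiT (hWV i hi).1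
    obtain ⟨-, -, h2⟩ := hStr _ cS' hS'T (mem_insert_self _ _)
    let w : Fin n → ℤ := fun i => if i ∈ A then -v i else if i ∈ insert v₁ W then c i else 0
    have hcne : ∀ i, c i ≠ 0 := by
      intro i
      rcases hc i with h3 | h3 <;> rw [h3] <;> norm_num
    have hw0 : supp w = insert v₁ (A ∪ W) := by
      ext i
      rw [mem_supp, mem_insert, mem_union]
      simp only [w]
      by_cases h3 : i ∈ A
      · rw [if_pos h3]
        have h4 : v i ≠ 0 := mem_supp.1 (hAS h3)
        constructor
        · intro _
          exact Or.inr (Or.inl h3)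
        · intro _
          exact neg_ne_zero.2 h4
      · rw [if_neg h3]
        by_cases h4 : i ∈ insert v₁ W
        · rw [if_pos h4]
          rw [mem_insert] at h4
          constructor
          · intro _
            tauto
          · intro _
            exact hcne i
        · rw [if_neg h4]
          rw [mem_insert] at h4
          constructor
          · intro h5
            exact absurd rfl h5
          · intro h5
            tauto
    have hwV : IsV n k w := by
      refine ⟨fun i => ?_, by rw [hw0]; exact cS'⟩
      simp only [w]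
      split_ifs
      · rcases hv1 i with h3 | h3 | h3 <;> rw [h3] <;> norm_num
      · rcases hc i with h3 | h3 <;> rw [h3] <;> norm_num
      · exact Or.inr (Or.inl rfl)
    have hwF : w ∈ F := by
      refine (h2 w hwV hw0).2 ?_
      have h3 : ((insert v₁ (A ∪ W)).erase v₁).filter (fun i => w i ≠ c i) ⊆
          A \ D' := by
        intro i hi
        rw [mem_filter, erase_insert hv₁AW, mem_union] at hi
        obtain ⟨hi1, hi2⟩ := hi
        by_cases h4 : i ∈ A
        · simp only [w, if_pos h4] at hi2
          rw [neg_ne_iff (hv1 i) (mem_supp.1 (hAS h4)) (hc i)] at hi2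
          rw [mem_sdiff]
          refine ⟨h4, fun h5 => ?_⟩
          exact (mem_filter.1 (hD' h5)).2 hi2
        · exfalso
          have h5 : i ∈ W := hi1.resolve_left h4
          simp only [w, if_neg h4, if_pos (mem_insert_of_mem h5)] at hi2
          exact hi2 rfl
      have h4 := card_le_card h3
      rw [card_sdiff_of_subset hDA, cA, cD'] at h4
      omega
    have hdw : dot v w = -(2 * (d : ℤ) + 2) := by
      unfold dot
      have h3 : ∀ i, v i * w i = if i ∈ A then (-1 : ℤ) else 0 := by
        intro i
        by_cases h4 : i ∈ A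
        · simp only [w, if_pos h4]
          have h5 : v i ≠ 0 := mem_supp.1 (hAS h4)
          rcases hv1 i with h6 | h6 | h6
          · rw [h6]; norm_num
          · exact absurd h6 h5
          · rw [h6]; norm_num
        · simp only [w, if_neg h4]
          by_cases h5 : i ∈ insert v₁ W
          · have h6 : v i = 0 := by
              by_contra h7
              rw [mem_insert] at h5
              rcases h5 with rfl | h5
              · exact h1 (mem_supp.2 h7)
              · exact (hWV i h5).2.2 (mem_supp.2 h7)
            rw [h6, zero_mul]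
          · rw [if_neg h5, mul_zero]
      rw [sum_congr rfl fun i _ => h3 i, sum_ite_mem, univ_inter, sum_const, cA]
      ring
    refine hdot v hv w hwF ?_ hdw
    intro h3
    rw [← h3] at hdw
    have h4 : 0 ≤ dot v v := by
      unfold dot
      exact sum_nonneg fun i _ => mul_self_nonneg _
    omega

end Pool.Agent.Helper47.SGB
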