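import Mathlib

/-! Reversal of a down compression (project SG, `MP_66bcf1_co`). -/

set_option autoImplicit false

open Finset

namespace Pool.Agent.Helper47.SG

section

variable {ι : Type} [DecidableEq ι]

lemma card_sd_disj {C D E : Finset ι} {x : ι} (hx : x ∉ C) (hD : x ∉ D) (hE : x ∉ E)
    (h : Disjoint D E) :
    #(symmDiff (symmDiff C D) (insert x (symmDiff C E))) = #D + #E + 1 := by
  have e : symmDiff (symmDiff C D) (insert x (symmDiff C E)) = insert x (D ∪ E) := by
    ext y
    have h1 : y ∈ D → y ∉ E := fun a b => disjoint_left.1 h a b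
    by_cases hy : y = x
    · subst hy
      simp [mem_symmDiff, hx, hD, hE]
    · simp only [mem_symmDiff, mem_insert, mem_union, hy, false_or]
      tauto
  rw [e, card_insert_of_notMem (by simp [hD, hE]), card_union_of_disjoint h]

lemma sd_insert {Z C : Finset ι} {x : ι} (hZ : x ∉ Z) (hx : x ∉ C) :
    #(symmDiff (insert x Z) C) = #(symmDiff Z C) + 1 := by
  have e : symmDiff (insert x Z) C = insert x (symmDiff Z C) := by
    ext y
    by_cases hy : y = x
    · subst hy
      simp [mem_symmDiff, hx]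
    · simp only [mem_symmDiff, mem_insert, hy, false_or]
  rw [e, card_insert_of_notMem (by simp [mem_symmDiff, hZ, hx])]

lemma sd_insert_right {Z C : Finset ι} {x : ι} (hZ : x ∉ Z) (hx : x ∉ C) :
    #(symmDiff Z (insert x C)) = #(symmDiff Z C) + 1 := by
  rw [symmDiff_comm, sd_insert hx hZ, symmDiff_comm]

lemma sd_insert_both {Z C : Finset ι} {x : ι} (hZ : x ∉ Z) (hx : x ∉ C) :
    #(symmDiff (insert x Z) (insert x C)) = #(symmDiff Z C) := by
  congr 1
  ext y
  by_cases hy : y = x
  · subst hy
    simp [mem_symmDiff, hx, hZ]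
  · simp only [mem_symmDiff, mem_insert, hy, false_or]

lemma sd_self (C D : Finset ι) : symmDiff (symmDiff C D) C = D := by
  rw [symmDiff_comm C D, symmDiff_assoc, symmDiff_self]
  simp

lemma sd_self' (C D : Finset ι) : symmDiff C (symmDiff D C) = D := by
  rw [symmDiff_comm D C, ← symmDiff_assoc, symmDiff_self]
  simp

end

theorem rev (ι : Type) [Fintype ι] [DecidableEq ι] (d : ℕ) (F : Finset (Finset ι)) (x : ι)
    (hm : 2 * d + 2 ≤ Fintype.card ι)
    (hF : ∀ A ∈ F, ∀ B ∈ F, #(symmDiff A B) ≤ 2 * d) (C : Finset ι)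
    (hC : Down.compression x F = univ.filter (fun A => #(symmDiff A C) ≤ d)) :
    ∃ C', F = univ.filter (fun A => #(symmDiff A C') ≤ d) := by
  have mem : ∀ A, (A ∈ F ∧ A.erase x ∈ F ∨ A ∉ F ∧ insert x A ∈ F) ↔ #(symmDiff A C) ≤ d := by
    intro A
    rw [← Down.mem_compression, hC]
    simp
  have hx : x ∉ C := by
    intro hxC
    obtain ⟨D, hDs, hDc⟩ := exists_subset_card_eq (s := univ.erase x) (n := d) (by
      rw [card_erase_of_mem (mem_univ x), card_univ]
      omega)
    have hxD : x ∉ D := fun h => (mem_erase.1 (hDs h)).1 rfl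
    have h2 : symmDiff C D ∈ Down.compression x F := by
      rw [hC, mem_filter, sd_self]
      exact ⟨mem_univ _, hDc.le⟩
    have h3 := Down.erase_mem_compression_of_mem_compression h2
    rw [hC, mem_filter] at h3
    have h4 : symmDiff ((symmDiff C D).erase x) C = insert x D := by
      ext y
      by_cases hy : y = x
      · subst hy
        simp [mem_symmDiff, hxC]
      · simp only [mem_symmDiff, mem_erase, mem_insert, hy, false_or, ne_eq, not_false_eq_true,
          true_and]
        tauto
    rw [h4, card_insert_of_notMem hxD] at h3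
    omega
  have m1 : ∀ Z, x ∉ Z → (insert x Z ∈ F ∧ Z ∈ F ↔ #(symmDiff Z C) + 1 ≤ d) := by
    intro Z hZ
    have h := mem (insert x Z)
    rw [erase_insert hZ, insert_idem, sd_insert hZ hx] at h
    tauto
  have m2 : ∀ Z, x ∉ Z → (Z ∈ F ∨ insert x Z ∈ F ↔ #(symmDiff Z C) ≤ d) := by
    intro Z hZ
    have h := mem Z
    rw [erase_eq_of_notMem hZ] at h
    tauto
  -- two disjoint sets
  have k1 : ∀ D E : Finset ι, x ∉ D → x ∉ E → #D = d → #E = d → Disjoint D E →
      symmDiff C D ∈ F → symmDiff C E ∈ F := by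
    intro D E hD hE cD cE hDE h
    by_contra h'
    have hxE : x ∉ symmDiff C E := by simp [mem_symmDiff, hx, hE]
    have h1 := (m2 _ hxE).2 (by rw [sd_self]; exact cE.le)
    have h2 := h1.resolve_left h'
    have h3 := hF _ h _ h2
    rw [card_sd_disj hx hD hE hDE] at h3
    omega
  have k2 : ∀ D E : Finset ι, x ∉ D → x ∉ E → #D = d → #E = d → #(D ∪ E) ≤ d + 1 →
      symmDiff C D ∈ F → symmDiff C E ∈ F := by
    intro D E hD hE cD cE hDE h
    obtain ⟨G, hG, cG⟩ := exists_subset_card_eq (s := univ \ insert x (D ∪ E)) (n := d) (by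
      rw [card_sdiff_of_subset (subset_univ _), card_univ]
      have := card_insert_le x (D ∪ E)
      omega)
    have g : ∀ y ∈ G, y ≠ x ∧ y ∉ D ∧ y ∉ E := by
      intro y hy
      have h1 := (mem_sdiff.1 (hG hy)).2
      simp only [mem_insert, mem_union, not_or] at h1
      exact h1
    have hxG : x ∉ G := fun h0 => (g x h0).1 rfl
    have h1 := k1 D G hD hxG cD cG
      (disjoint_left.2 fun y hy hy' => (g y hy').2.1 hy) h
    exact k1 G E hxG hE cG cE (disjoint_left.2 fun y hy hy' => (g y hy).2.2 hy') h1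
  have k3 : ∀ m : ℕ, ∀ D E : Finset ι, #(E \ D) = m → x ∉ D → x ∉ E → #D = d → #E = d →
      symmDiff C D ∈ F → symmDiff C E ∈ F := by
    intro m
    induction m with
    | zero =>
      intro D E h0 hD hE cD cE h
      have h1 : E ⊆ D := sdiff_eq_empty_iff_subset.1 (card_eq_zero.1 h0)
      rwa [eq_of_subset_of_card_le h1 (by omega)]
    | succ m ih =>
      intro D E h0 hD hE cD cE h
      obtain ⟨b, hb⟩ : (E \ D).Nonempty := card_pos.1 (by omega)
      have h1 : #(D \ E) = #(E \ D) := by
        have := card_sdiff_add_card_inter D E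
        have h3 := card_sdiff_add_card_inter E D
        rw [inter_comm] at h3
        omega
      obtain ⟨a, ha⟩ : (D \ E).Nonempty := card_pos.1 (by omega)
      rw [mem_sdiff] at ha hb
      have hab : b ≠ a := fun h2 => ha.2 (h2 ▸ hb.1)
      have hbx : b ≠ x := fun h2 => hE (h2 ▸ hb.1)
      have hbe : b ∉ D.erase a := fun h2 => hb.2 (mem_of_mem_erase h2)
      have c1 : #(insert b (D.erase a)) = d := by
        rw [card_insert_of_notMem hbe, card_erase_of_mem ha.1, cD]
        have : 0 < #D := card_pos.2 ⟨a, ha.1⟩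
        omega
      have hx1 : x ∉ insert b (D.erase a) := by
        simp only [mem_insert, mem_erase, not_or, not_and]
        exact ⟨fun h2 => hbx h2.symm, fun _ => hD⟩
      have h2 : symmDiff C (insert b (D.erase a)) ∈ F := by
        refine k2 D _ hD hx1 cD c1 ?_ h
        have h3 : D ∪ insert b (D.erase a) ⊆ insert b D := by
          intro y hy
          simp only [mem_union, mem_insert, mem_erase] at hy ⊢
          tauto
        refine (card_le_card h3).trans ((card_insert_le _ _).trans ?_)
        omega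
      refine ih _ E ?_ hx1 hE c1 cE h2
      have h3 : E \ insert b (D.erase a) = (E \ D).erase b := by
        ext y
        simp only [mem_sdiff, mem_insert, mem_erase, not_or, not_and, ne_eq]
        constructor
        · rintro ⟨y1, y2, y3⟩
          refine ⟨y2, y1, fun h4 => y3 (fun h5 => ha.2 (h5 ▸ y1)) h4⟩
        · rintro ⟨y1, y2, y3⟩
          exact ⟨y2, y1, fun _ => y3⟩
      rw [h3, card_erase_of_mem (mem_sdiff.2 hb), h0]
      rfl
  by_cases hc : ∃ D : Finset ι, x ∉ D ∧ #D = d ∧ symmDiff C D ∈ F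
  · obtain ⟨D, hD, cD, hDF⟩ := hc
    have all : ∀ Z : Finset ι, x ∉ Z → #(symmDiff Z C) = d → Z ∈ F := by
      intro Z hZ hZd
      have h1 : x ∉ symmDiff Z C := by simp [mem_symmDiff, hx, hZ]
      have h2 := k3 _ D (symmDiff Z C) rfl hD h1 cD hZd hDF
      rwa [sd_self'] at h2
    refine ⟨C, ?_⟩
    ext A
    rw [mem_filter]
    by_cases hA : x ∈ A
    · obtain ⟨Z, hZ, rfl⟩ : ∃ Z, x ∉ Z ∧ insert x Z = A :=
        ⟨A.erase x, notMem_erase x A, insert_erase hA⟩
      rw [sd_insert hZ hx]
      constructor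
      · intro h
        refine ⟨mem_univ _, ?_⟩
        have h1 := (m2 Z hZ).1 (Or.inr h)
        by_contra h2
        exact h2 ((m1 Z hZ).1 ⟨h, all Z hZ (by omega)⟩)
      · rintro ⟨-, h⟩
        exact ((m1 Z hZ).2 h).1
    · constructor
      · intro h
        exact ⟨mem_univ _, (m2 A hA).1 (Or.inl h)⟩
      · rintro ⟨-, h⟩
        rcases h.lt_or_eq with h1 | h1
        · exact ((m1 A hA).2 h1).2
        · exact all A hA h1
  · have none : ∀ Z : Finset ι, x ∉ Z → #(symmDiff Z C) = d → Z ∉ F := by
      intro Z hZ hZd hZF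
      refine hc ⟨symmDiff Z C, by simp [mem_symmDiff, hx, hZ], hZd, ?_⟩
      rwa [sd_self']
    refine ⟨insert x C, ?_⟩
    ext A
    rw [mem_filter]
    by_cases hA : x ∈ A
    · obtain ⟨Z, hZ, rfl⟩ : ∃ Z, x ∉ Z ∧ insert x Z = A :=
        ⟨A.erase x, notMem_erase x A, insert_erase hA⟩
      rw [sd_insert_both hZ hx]
      constructor
      · intro h
        exact ⟨mem_univ _, (m2 Z hZ).1 (Or.inr h)⟩
      · rintro ⟨-, h⟩
        rcases h.lt_or_eq with h1 | h1
        · exact ((m1 Z hZ).2 h1).1
        · exact ((m2 Z hZ).2 h).resolve_left (none Z hZ h1)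
    · rw [sd_insert_right hA hx]
      constructor
      · intro h
        refine ⟨mem_univ _, ?_⟩
        have h1 := (m2 A hA).1 (Or.inl h)
        by_contra h2
        exact none A hA (by omega) h
      · rintro ⟨-, h⟩
        exact ((m1 A hA).2 h).2

end Pool.Agent.Helper47.SG
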